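import Pool.Agent.TH510.Sefe.Graphs

/-!
# The shared graph is a tree of maximum degree four
-/

set_option autoImplicit false

namespace Pool.Agent.TH510.Sefe

instance : DecidableRel (G₁ ⊓ G₂).Adj := fun u v =>
  inferInstanceAs (Decidable (G₁.Adj u v ∧ G₂.Adj u v))

theorem shared_connected : (G₁ ⊓ G₂).Connected := by
  rw [SimpleGraph.connected_iff_exists_forall_reachable]
  refine ⟨0, ?_⟩
  have h2 : (G₁ ⊓ G₂).Reachable 0 2 := SimpleGraph.Adj.reachable (by decide +kernel)
  have h3 : (G₁ ⊓ G₂).Reachable 0 3 := SimpleGraph.Adj.reachable (by decide +kernel)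
  have h4 : (G₁ ⊓ G₂).Reachable 0 4 := SimpleGraph.Adj.reachable (by decide +kernel)
  have h5 : (G₁ ⊓ G₂).Reachable 0 5 := SimpleGraph.Adj.reachable (by decide +kernel)
  have h9 : (G₁ ⊓ G₂).Reachable 0 9 := h5.trans (SimpleGraph.Adj.reachable (by decide +kernel))
  have h1 : (G₁ ⊓ G₂).Reachable 0 1 := h9.trans (SimpleGraph.Adj.reachable (by decide +kernel))
  have h6 : (G₁ ⊓ G₂).Reachable 0 6 := h1.trans (SimpleGraph.Adj.reachable (by decide +kernel))
  have h7 : (G₁ ⊓ G₂).Reachable 0 7 := h1.trans (SimpleGraph.Adj.reachable (by decide +kernel))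
  have h8 : (G₁ ⊓ G₂).Reachable 0 8 := h1.trans (SimpleGraph.Adj.reachable (by decide +kernel))
  intro v
  fin_cases v
  · exact SimpleGraph.Reachable.refl _
  · exact h1
  · exact h2
  · exact h3
  · exact h4
  · exact h5
  · exact h6
  · exact h7
  · exact h8
  · exact h9

def common (i : Fin 9) : Sym2 (Fin 10) := s(eu (Fin.castLE (by norm_num) i), ev (Fin.castLE (by norm_num) i))

theorem common_inj : Function.Injective common := by
  intro i j
  revert i j
  decide +kernel

theorem edgeSet_eq : (G₁ ⊓ G₂).edgeSet = Set.range common := by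
  have h : ∀ u v : Fin 10, (G₁ ⊓ G₂).Adj u v ↔ ∃ i : Fin 9, common i = s(u, v) := by
    decide +kernel
  ext e
  induction e with
  | _ u v => exact h u v

theorem shared_tree : (G₁ ⊓ G₂).IsTree := by
  rw [SimpleGraph.isTree_iff_connected_and_card]
  refine ⟨shared_connected, ?_⟩
  rw [edgeSet_eq, Nat.card_range_of_injective common_inj]
  simp

theorem shared_degree : ∀ v, ((G₁ ⊓ G₂).neighborSet v).ncard ≤ 4 := by
  intro v
  have h : ∀ v, ((G₁ ⊓ G₂).neighborFinset v).card ≤ 4 := by decide +kernel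
  have h2 := h v
  rw [← Set.ncard_coe_finset, SimpleGraph.coe_neighborFinset] at h2
  exact h2

end Pool.Agent.TH510.Sefe
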