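import Mathlib

/-!
# Drawings of graphs in the plane, independent odd crossings, and simultaneous embeddings

The plane is the complex plane `ℂ`.
-/

set_option autoImplicit false

namespace Pool.Agent.TH510.Sefe

open Set

/-- `a` is (the set of points of) a simple arc in the plane joining `x` and `y`. -/
def IsArc (a : Set ℂ) (x y : ℂ) : Prop :=
  ∃ γ : Path x y, Function.Injective γ ∧ Set.range γ = a

/-- The arcs `a` and `b` cross properly at `z`: in suitable local coordinates around `z` (a
homeomorphism `φ` between a neighbourhood of `z` and an open subset of `ℝ × ℝ`, with `φ z = 0`),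
the arc `a` is the first coordinate axis and the arc `b` is the second coordinate axis. -/
def IsProperCrossing (a b : Set ℂ) (z : ℂ) : Prop :=
  ∃ φ : OpenPartialHomeomorph ℂ (ℝ × ℝ), z ∈ φ.source ∧ φ z = (0, 0) ∧
    ∀ w ∈ φ.source, (w ∈ a ↔ (φ w).2 = 0) ∧ (w ∈ b ↔ (φ w).1 = 0)

/-- A drawing of the simple graph `G` in the plane: the vertices are distinct points, each edge is
a simple arc joining its two endpoints and passing through no other vertex, any two arcs share
finitely many points, and each common point that is not a vertex is a proper crossing. -/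
structure Drawing {V : Type} (G : SimpleGraph V) where
  /-- the point of a vertex -/
  pt : V → ℂ
  /-- the arc of an edge -/
  arc : Sym2 V → Set ℂ
  pt_inj : Function.Injective pt
  isArc : ∀ u v : V, G.Adj u v → IsArc (arc s(u, v)) (pt u) (pt v)
  avoid : ∀ e ∈ G.edgeSet, ∀ w : V, pt w ∈ arc e → w ∈ e
  finite : ∀ e ∈ G.edgeSet, ∀ f ∈ G.edgeSet, e ≠ f → (arc e ∩ arc f).Finite
  proper : ∀ e ∈ G.edgeSet, ∀ f ∈ G.edgeSet, e ≠ f → ∀ z ∈ arc e ∩ arc f,
    z ∉ Set.range pt → IsProperCrossing (arc e) (arc f) z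

/-- The crossings of `e` and `f`: the common points of the two arcs that are not vertices. -/
def Drawing.crossings {V : Type} {G : SimpleGraph V} (D : Drawing G) (e f : Sym2 V) : Set ℂ :=
  {z | z ∈ D.arc e ∩ D.arc f ∧ z ∉ Set.range D.pt}

/-- Two edges are independent if they have no common endpoint. -/
def Indep {V : Type} (e f : Sym2 V) : Prop := ∀ v : V, ¬ (v ∈ e ∧ v ∈ f)

/-- `iocr(D)`: the number of (unordered) pairs of independent edges of `G` whose number of mutual
crossings is odd. -/
noncomputable def Drawing.iocr {V : Type} {G : SimpleGraph V} (D : Drawing G) : ℕ :=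
  Set.ncard {p : Sym2 (Sym2 V) | ∃ e ∈ G.edgeSet, ∃ f ∈ G.edgeSet, p = s(e, f) ∧ Indep e f ∧
    Odd (D.crossings e f).ncard}

/-- The drawing of a subgraph (with the same vertices) contained in a drawing. -/
def Drawing.restrict {V : Type} {G H : SimpleGraph V} (D : Drawing G) (h : H ≤ G) :
    Drawing H where
  pt := D.pt
  arc := D.arc
  pt_inj := D.pt_inj
  isArc u v huv := D.isArc u v (h huv)
  avoid e he := D.avoid e (SimpleGraph.edgeSet_mono h he)
  finite e he f hf := D.finite e (SimpleGraph.edgeSet_mono h he) f (SimpleGraph.edgeSet_mono h hf)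
  proper e he f hf :=
    D.proper e (SimpleGraph.edgeSet_mono h he) f (SimpleGraph.edgeSet_mono h hf)

/-- `siocr(D) = iocr(D[G₁]) + iocr(D[G₂])` for a drawing `D` of `G₁ ∪ G₂`. -/
noncomputable def siocr {V : Type} {G₁ G₂ : SimpleGraph V} (D : Drawing (G₁ ⊔ G₂)) : ℕ :=
  (D.restrict (le_sup_left : G₁ ≤ G₁ ⊔ G₂)).iocr +
    (D.restrict (le_sup_right : G₂ ≤ G₁ ⊔ G₂)).iocr

/-- A drawing is planar if no two edges cross. -/
def Drawing.Planar {V : Type} {G : SimpleGraph V} (D : Drawing G) : Prop :=
  ∀ e ∈ G.edgeSet, ∀ f ∈ G.edgeSet, e ≠ f → D.crossings e f = ∅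

/-- The pair `(G₁, G₂)` of graphs with the same vertices admits a simultaneous embedding with
fixed edges: there are planar drawings of `G₁` and of `G₂` in which every vertex is the same point
and every edge of `G₁ ∩ G₂` is the same arc. -/
def AdmitsSEFE {V : Type} (G₁ G₂ : SimpleGraph V) : Prop :=
  ∃ (D₁ : Drawing G₁) (D₂ : Drawing G₂), D₁.Planar ∧ D₂.Planar ∧ (∀ v, D₁.pt v = D₂.pt v) ∧
    ∀ e ∈ (G₁ ⊓ G₂).edgeSet, D₁.arc e = D₂.arc e

end Pool.Agent.TH510.Sefe
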