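import Pool.Agent.TH510.Sefe.Graphs
import Pool.Agent.H858R3.PolyDraw

/-!
# A drawing of the union of the two graphs
-/

set_option autoImplicit false

namespace Pool.Agent.TH510.Sefe

open Set Complex Pool.Agent.H858R3.Poly
open Pool.Agent.H858R3.PolyDraw (segs arcL good lastP lastP_append arc_of_good arcOf_toFinset)

/-- the points of the vertices -/
def pos : Fin 10 → P :=
  ![(4, 6), (7, 4), (7, 5), (0, 1), (1, 2), (5, 8), (6, 6), (8, 3), (6, 3), (4, 5)]

/-- the bends of the edges -/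
def bends : Fin 15 → List P :=
  ![[(0, 0), (4, 10)], [], [], [], [(5, 1)], [], [], [], [], [], [], [(10, 10)], [], [(8, 8)],
    [(10, 3)]]

/-- the segments of an edge -/
def L (i : Fin 15) : List (P × P) := segs (pos (eu i)) (bends i ++ [pos (ev i)])

def isEnd (w : Fin 10) (i : Fin 15) : Bool := decide (w = eu i) || decide (w = ev i)

def okSelf (i : Fin 15) : Bool :=
  good (pos (eu i)) (bends i ++ [pos (ev i)]) &&
    (L i).all fun s => decide (s.1 ≠ s.2) && (L i).all fun s' => decide (s = s') || sep s s'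

def okAvoid (i : Fin 15) (w : Fin 10) : Bool :=
  isEnd w i || (L i).all fun s => decide (os s (pos w) ≠ 0)

def okPair (i j : Fin 15) : Bool :=
  (L i).all fun s => (L j).all fun t => disj s t || cross s t ||
    decide (∃ w : Fin 10, isEnd w i = true ∧ isEnd w j = true ∧ cornerAt (pos w) s t = true)

/-- the number of crossings of two edges -/
def cnt (i j : Fin 15) : ℕ :=
  (((L i).toFinset ×ˢ (L j).toFinset).filter (fun q => cross q.1 q.2 = true)).card

theorem chk_pos : ∀ u v : Fin 10, pos u = pos v → u = v := by decide +kernel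

theorem chk_self : ∀ i : Fin 15, okSelf i = true := by decide +kernel

theorem chk_avoid : ∀ (i : Fin 15) (w : Fin 10), okAvoid i w = true := by decide +kernel

theorem chk_pair : ∀ i j : Fin 15, i ≠ j → okPair i j = true := by decide +kernel

theorem chk_cnt : ∀ i j : Fin 15, ((i.val < 12 ∧ j.val < 12) ∨
    ((i.val < 9 ∨ 12 ≤ i.val) ∧ (j.val < 9 ∨ 12 ≤ j.val))) →
    (∀ w : Fin 10, ¬ (isEnd w i = true ∧ isEnd w j = true)) → Even (cnt i j) := by decide +kernel

theorem edge_inj : ∀ i j : Fin 15, (s(eu i, ev i) : Sym2 (Fin 10)) = s(eu j, ev j) → i = j := by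
  decide +kernel

theorem mem_G₁ {e : Sym2 (Fin 10)} :
    e ∈ G₁.edgeSet ↔ ∃ i : Fin 15, i.val < 12 ∧ e = s(eu i, ev i) := by
  induction e with
  | _ u v => exact Iff.rfl

theorem mem_G₂ {e : Sym2 (Fin 10)} :
    e ∈ G₂.edgeSet ↔ ∃ i : Fin 15, (i.val < 9 ∨ 12 ≤ i.val) ∧ e = s(eu i, ev i) := by
  induction e with
  | _ u v => exact Iff.rfl

theorem mem_sup {e : Sym2 (Fin 10)} (he : e ∈ (G₁ ⊔ G₂).edgeSet) :
    ∃ i : Fin 15, e = s(eu i, ev i) := by
  rw [SimpleGraph.edgeSet_sup] at he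
  rcases he with he | he
  · obtain ⟨i, -, h⟩ := mem_G₁.1 he; exact ⟨i, h⟩
  · obtain ⟨i, -, h⟩ := mem_G₂.1 he; exact ⟨i, h⟩

theorem self_prop (i : Fin 15) : good (pos (eu i)) (bends i ++ [pos (ev i)]) = true ∧
    ∀ s ∈ (L i).toFinset, s.1 ≠ s.2 ∧ ∀ s' ∈ (L i).toFinset, s ≠ s' → sep s s' = true := by
  have h := chk_self i
  simp only [okSelf, Bool.and_eq_true, List.all_eq_true, decide_eq_true_eq, Bool.or_eq_true] at h
  refine ⟨h.1, fun s hs => ?_⟩
  rw [List.mem_toFinset] at hs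
  refine ⟨(h.2 s hs).1, fun s' hs' hne => ?_⟩
  rw [List.mem_toFinset] at hs'
  exact ((h.2 s hs).2 s' hs').resolve_left hne

/-- the arcs of the drawing -/
def theArc (e : Sym2 (Fin 10)) : Set ℂ := {z | ∃ i : Fin 15, e = s(eu i, ev i) ∧ z ∈ arcL (L i)}

theorem theArc_eq (i : Fin 15) : theArc s(eu i, ev i) = arcL (L i) := by
  ext z
  constructor
  · rintro ⟨j, hj, hz⟩
    rw [edge_inj i j hj]; exact hz
  · intro hz; exact ⟨i, rfl, hz⟩

theorem arc_i (i : Fin 15) : IsArc (arcL (L i)) (cp (pos (eu i))) (cp (pos (ev i))) := by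
  have h1 := (self_prop i).1
  unfold L
  have key : ∀ (p : P) (l : List P) (q : P), good p (l ++ [q]) = true →
      IsArc (arcL (segs p (l ++ [q]))) (cp p) (cp q) := by
    intro p l q hg
    cases l with
    | nil =>
      obtain ⟨γ, g1, g2⟩ := arc_of_good [] p q hg
      exact ⟨γ, g1, g2⟩
    | cons r l =>
      obtain ⟨γ, g1, g2⟩ := arc_of_good (l ++ [q]) p r hg
      have e : lastP p (r :: (l ++ [q])) = q := lastP_append r l q
      rw [show (r :: l ++ [q]) = r :: (l ++ [q]) from rfl, ← g2]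
      refine ⟨γ.cast rfl (by rw [e]), ?_, ?_⟩
      · exact g1
      · rfl
  exact key _ _ _ h1

theorem avoid_i {i : Fin 15} {w : Fin 10} (hw : cp (pos w) ∈ arcL (L i)) : isEnd w i = true := by
  have h := chk_avoid i w
  simp only [okAvoid, Bool.or_eq_true, List.all_eq_true, decide_eq_true_eq] at h
  rcases h with h | h
  · exact h
  · exfalso
    obtain ⟨s, hs, hz⟩ := hw
    apply h s hs
    have := orr_seg hz
    rw [orr_cp] at this
    unfold os
    exact_mod_cast this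

theorem isEnd_mem {w : Fin 10} {i : Fin 15} :
    isEnd w i = true ↔ w ∈ (s(eu i, ev i) : Sym2 (Fin 10)) := by
  simp only [isEnd, Bool.or_eq_true, decide_eq_true_eq, Sym2.mem_iff]

theorem pair_prop {i j : Fin 15} (hij : i ≠ j) {s t : P × P} (hs : s ∈ L i) (ht : t ∈ L j) :
    disj s t = true ∨ cross s t = true ∨
      ∃ w : Fin 10, isEnd w i = true ∧ isEnd w j = true ∧ cornerAt (pos w) s t = true := by
  have h := chk_pair i j hij
  simp only [okPair, List.all_eq_true, Bool.or_eq_true, decide_eq_true_eq] at h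
  rcases h s hs t ht with (h | h) | h
  · exact Or.inl h
  · exact Or.inr (Or.inl h)
  · exact Or.inr (Or.inr h)

theorem finite_ij {i j : Fin 15} (hij : i ≠ j) : (arcL (L i) ∩ arcL (L j)).Finite := by
  have hsub : arcL (L i) ∩ arcL (L j) ⊆
      ⋃ s ∈ (L i).toFinset, ⋃ t ∈ (L j).toFinset, (sg s ∩ sg t) := by
    rintro z ⟨⟨s, hs, hzs⟩, ⟨t, ht, hzt⟩⟩
    simp only [Set.mem_iUnion]
    exact ⟨s, List.mem_toFinset.2 hs, t, List.mem_toFinset.2 ht, hzs, hzt⟩
  refine Set.Finite.subset ?_ hsub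
  refine (L i).toFinset.finite_toSet.biUnion (fun s hs => ?_)
  refine (L j).toFinset.finite_toSet.biUnion (fun t ht => ?_)
  have hs' : s ∈ L i := List.mem_toFinset.1 hs
  have ht' : t ∈ L j := List.mem_toFinset.1 ht
  rcases pair_prop hij hs' ht' with h | h | ⟨w, -, -, h⟩
  · rw [Set.disjoint_iff_inter_eq_empty.1 (disj_sound h)]; exact Set.finite_empty
  · obtain ⟨z, hz, -⟩ := cross_sound h
    rw [hz]; exact Set.finite_singleton z
  · exact (Set.finite_singleton _).subset (corner_sound h)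

theorem proper_ij {i j : Fin 15} (hij : i ≠ j) {z : ℂ} (hz : z ∈ arcL (L i) ∩ arcL (L j))
    (hzn : ∀ w : Fin 10, z ≠ cp (pos w)) : IsProperCrossing (arcL (L i)) (arcL (L j)) z := by
  obtain ⟨⟨s, hs, hzs⟩, ⟨t, ht, hzt⟩⟩ := hz
  rcases pair_prop hij hs ht with h | h | ⟨w, -, -, h⟩
  · exact absurd hzt (Set.disjoint_left.1 (disj_sound h) hzs)
  · rw [← arcOf_toFinset, ← arcOf_toFinset]
    exact proper_sound (self_prop i).2 (self_prop j).2 (List.mem_toFinset.2 hs)
      (List.mem_toFinset.2 ht) h hzs hzt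
  · exact absurd (corner_sound h ⟨hzs, hzt⟩) (hzn w)

theorem card_ij {i j : Fin 15} (hij : i ≠ j)
    (hind : ∀ w : Fin 10, ¬ (isEnd w i = true ∧ isEnd w j = true)) :
    (arcL (L i) ∩ arcL (L j)).ncard = cnt i j := by
  rw [← arcOf_toFinset, ← arcOf_toFinset]
  refine ncard_inter (self_prop i).2 (self_prop j).2 ?_
  intro s hs t ht
  rcases pair_prop hij (List.mem_toFinset.1 hs) (List.mem_toFinset.1 ht) with h | h | ⟨w, h1, h2, -⟩
  · exact Or.inl h
  · exact Or.inr h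
  · exact absurd ⟨h1, h2⟩ (hind w)

/-- the drawing -/
noncomputable def draw : Drawing (G₁ ⊔ G₂) where
  pt v := cp (pos v)
  arc := theArc
  pt_inj u v huv := chk_pos u v (cp_inj huv)
  isArc := by
    intro u v huv
    obtain ⟨i, hi⟩ := mem_sup (e := s(u, v)) huv
    rw [hi, theArc_eq]
    rw [Sym2.eq_iff] at hi
    rcases hi with ⟨h1, h2⟩ | ⟨h1, h2⟩
    · rw [h1, h2]; exact arc_i i
    · rw [h1, h2]
      obtain ⟨γ, hγ, hr⟩ := arc_i i
      exact ⟨γ.symm, fun s t hst => unitInterval.symm_bijective.1 (hγ hst), by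
        rw [Path.symm_range]; exact hr⟩
  avoid := by
    intro e he w hw
    obtain ⟨i, rfl⟩ := mem_sup he
    rw [theArc_eq] at hw
    exact isEnd_mem.1 (avoid_i hw)
  finite := by
    intro e he f hf hef
    obtain ⟨i, rfl⟩ := mem_sup he
    obtain ⟨j, rfl⟩ := mem_sup hf
    rw [theArc_eq, theArc_eq]
    exact finite_ij (fun hh => hef (by rw [hh]))
  proper := by
    intro e he f hf hef z hz hzn
    obtain ⟨i, rfl⟩ := mem_sup he
    obtain ⟨j, rfl⟩ := mem_sup hf
    rw [theArc_eq, theArc_eq] at hz ⊢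
    exact proper_ij (fun hh => hef (by rw [hh])) hz (fun w hw => hzn ⟨w, hw.symm⟩)

theorem even_ij {i j : Fin 15} (h : (i.val < 12 ∧ j.val < 12) ∨
    ((i.val < 9 ∨ 12 ≤ i.val) ∧ (j.val < 9 ∨ 12 ≤ j.val)))
    (hind : Indep (s(eu i, ev i) : Sym2 (Fin 10)) s(eu j, ev j)) :
    ¬ Odd (draw.crossings s(eu i, ev i) s(eu j, ev j)).ncard := by
  have hind' : ∀ w : Fin 10, ¬ (isEnd w i = true ∧ isEnd w j = true) := by
    rintro w ⟨h1, h2⟩
    exact hind w ⟨isEnd_mem.1 h1, isEnd_mem.1 h2⟩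
  have hij : i ≠ j := by
    rintro rfl
    exact hind (eu i) ⟨by simp, by simp⟩
  have e1 : draw.crossings s(eu i, ev i) s(eu j, ev j) = arcL (L i) ∩ arcL (L j) := by
    ext z
    change (z ∈ theArc _ ∩ theArc _ ∧ z ∉ Set.range fun v => cp (pos v)) ↔ _
    rw [theArc_eq, theArc_eq]
    refine ⟨fun h => h.1, fun hz => ⟨hz, ?_⟩⟩
    rintro ⟨w, rfl⟩
    exact hind' w ⟨avoid_i hz.1, avoid_i hz.2⟩
  rw [e1, card_ij hij hind', Nat.not_odd_iff_even]
  exact chk_cnt i j h hind'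

theorem siocr_draw : siocr draw = 0 := by
  unfold siocr
  have z1 : (draw.restrict (le_sup_left : G₁ ≤ G₁ ⊔ G₂)).iocr = 0 := by
    unfold Drawing.iocr
    have : {p : Sym2 (Sym2 (Fin 10)) | ∃ e ∈ G₁.edgeSet, ∃ f ∈ G₁.edgeSet, p = s(e, f) ∧
        Indep e f ∧ Odd ((draw.restrict (le_sup_left : G₁ ≤ G₁ ⊔ G₂)).crossings e f).ncard}
        = ∅ := by
      rw [Set.eq_empty_iff_forall_notMem]
      rintro p ⟨e, he, f, hf, -, hind, hodd⟩
      obtain ⟨i, hi, rfl⟩ := mem_G₁.1 he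
      obtain ⟨j, hj, rfl⟩ := mem_G₁.1 hf
      exact even_ij (Or.inl ⟨hi, hj⟩) hind hodd
    rw [this, Set.ncard_empty]
  have z2 : (draw.restrict (le_sup_right : G₂ ≤ G₁ ⊔ G₂)).iocr = 0 := by
    unfold Drawing.iocr
    have : {p : Sym2 (Sym2 (Fin 10)) | ∃ e ∈ G₂.edgeSet, ∃ f ∈ G₂.edgeSet, p = s(e, f) ∧
        Indep e f ∧ Odd ((draw.restrict (le_sup_right : G₂ ≤ G₁ ⊔ G₂)).crossings e f).ncard}
        = ∅ := by
      rw [Set.eq_empty_iff_forall_notMem]
      rintro p ⟨e, he, f, hf, -, hind, hodd⟩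
      obtain ⟨i, hi, rfl⟩ := mem_G₂.1 he
      obtain ⟨j, hj, rfl⟩ := mem_G₂.1 hf
      exact even_ij (Or.inr ⟨hi, hj⟩) hind hodd
    rw [this, Set.ncard_empty]
  rw [z1, z2]

end Pool.Agent.TH510.Sefe
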