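import Pool.Agent.TH510.Sefe.NoSefe

/-!
# The two graphs, and why they admit no simultaneous embedding with fixed edges

The vertices are `c = 0`, `d = 1`, `a i = 2 + i`, `b i = 6 + i` (`i < 4`).
-/

set_option autoImplicit false

namespace Pool.Agent.TH510.Sefe

open Set Complex Pool.Agent.H858R3.Lift Pool.Agent.H858R3.Cross

/-- the first ends of the fifteen edges -/
def eu : Fin 15 → Fin 10 := ![0, 0, 0, 0, 1, 1, 1, 1, 5, 2, 3, 4, 2, 3, 4]

/-- the second ends -/
def ev : Fin 15 → Fin 10 := ![2, 3, 4, 5, 6, 7, 8, 9, 9, 6, 7, 8, 7, 8, 6]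

/-- The first graph: the four paths `c, a i, b i, d`. -/
def G₁ : SimpleGraph (Fin 10) where
  Adj u v := ∃ i : Fin 15, i.val < 12 ∧ s(u, v) = s(eu i, ev i)
  symm := ⟨fun u v h => by
    obtain ⟨i, h1, h2⟩ := h
    exact ⟨i, h1, by rw [Sym2.eq_swap]; exact h2⟩⟩
  loopless := ⟨fun u h => by
    revert u
    decide +kernel⟩

/-- The second graph: the four paths `c, a i, b (σ i), d` with `σ = (0 1 2)`. -/
def G₂ : SimpleGraph (Fin 10) where
  Adj u v := ∃ i : Fin 15, (i.val < 9 ∨ 12 ≤ i.val) ∧ s(u, v) = s(eu i, ev i)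
  symm := ⟨fun u v h => by
    obtain ⟨i, h1, h2⟩ := h
    exact ⟨i, h1, by rw [Sym2.eq_swap]; exact h2⟩⟩
  loopless := ⟨fun u h => by
    revert u
    decide +kernel⟩

instance : DecidableRel G₁.Adj := fun u v =>
  inferInstanceAs (Decidable (∃ i : Fin 15, i.val < 12 ∧ s(u, v) = s(eu i, ev i)))

instance : DecidableRel G₂.Adj := fun u v =>
  inferInstanceAs (Decidable (∃ i : Fin 15, (i.val < 9 ∨ 12 ≤ i.val) ∧ s(u, v) = s(eu i, ev i)))

def va : Fin 4 → Fin 10 := ![2, 3, 4, 5]

def vb : Fin 4 → Fin 10 := ![6, 7, 8, 9]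

def σ : Fin 4 → Fin 4 := ![1, 2, 0, 3]

theorem pi_le {κ : ℝ} (h : exp ((κ : ℂ) * I) = -1) : Real.pi ≤ |κ| := by
  by_contra hcon
  push Not at hcon
  have h1 : Real.cos κ = -1 := by
    have h2 := congrArg Complex.re h
    rw [Complex.exp_ofReal_mul_I_re] at h2
    simpa using h2
  have h3 : Real.cos Real.pi < Real.cos |κ| :=
    Real.cos_lt_cos_of_nonneg_of_le_pi (abs_nonneg κ) le_rfl hcon
  rw [Real.cos_abs, h1, Real.cos_pi] at h3
  exact lt_irrefl _ h3

theorem no_sefe : ¬ AdmitsSEFE G₁ G₂ := by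
  rintro ⟨D₁, D₂, hP₁, hP₂, hpt, harc⟩
  obtain ⟨pt₂, arc₂, inj₂, isArc₂, avoid₂, finite₂, proper₂⟩ := D₂
  have hpt' : D₁.pt = pt₂ := funext hpt
  subst hpt'
  -- the common arcs
  have hP : ∀ i : Fin 4, ∃ γ : Path (D₁.pt 0) (D₁.pt (va i)), Function.Injective γ ∧
      Set.range γ = D₁.arc s(0, va i) := fun i => D₁.isArc 0 (va i) (by revert i; decide +kernel)
  have hQ : ∀ i : Fin 4, ∃ γ : Path (D₁.pt 1) (D₁.pt (vb i)), Function.Injective γ ∧
      Set.range γ = D₁.arc s(1, vb i) := fun i => D₁.isArc 1 (vb i) (by revert i; decide +kernel)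
  choose P hPi hPr using hP
  choose Q hQi hQr using hQ
  have cca : ∀ i : Fin 4, (s(0, va i) : Sym2 (Fin 10)) ∈ (G₁ ⊓ G₂).edgeSet := by
    intro i
    refine ⟨?_, ?_⟩ <;> revert i <;> decide +kernel
  have ccb : ∀ i : Fin 4, (s(1, vb i) : Sym2 (Fin 10)) ∈ (G₁ ⊓ G₂).edgeSet := by
    intro i
    refine ⟨?_, ?_⟩ <;> revert i <;> decide +kernel
  have hva : Function.Injective va := by decide +kernel
  have hvb : Function.Injective vb := by decide +kernel
  have hσ : Function.Injective σ := by decide +kernel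
  have o1 : ∀ t : Fin 3 → Fin 4, Function.Injective t →
      S (ex (P (t 0))) (ex (P (t 1))) (ex (P (t 2))) =
        - S (ex (Q (t 0))) (ex (Q (t 1))) (ex (Q (t 2))) := by
    intro t ht
    refine orient D₁ hP₁ 0 1 (fun i => va (t i)) (fun i => vb (t i)) ?_ ?_ ?_ (by decide)
      (hva.comp ht) (hvb.comp ht) ?_ ?_ ?_ (fun i => P (t i)) (fun i => hPi (t i))
      (fun i => hPr (t i)) (fun i => Q (t i)) (fun i => hQr (t i))
    · intro i; generalize t i = j; revert j; decide +kernel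
    · intro i; generalize t i = j; revert j; decide +kernel
    · intro i; generalize t i = j; revert j; decide +kernel
    · intro i; generalize t i = j; revert j; decide +kernel
    · intro i; generalize t i = j; revert j; decide +kernel
    · intro i i'; generalize t i = j; generalize t i' = j'; revert j j'; decide +kernel
  have o2 : ∀ t : Fin 3 → Fin 4, Function.Injective t →
      S (ex (P (t 0))) (ex (P (t 1))) (ex (P (t 2))) =
        - S (ex (Q (σ (t 0)))) (ex (Q (σ (t 1)))) (ex (Q (σ (t 2)))) := by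
    intro t ht
    refine orient (G := G₂) ⟨D₁.pt, arc₂, inj₂, isArc₂, avoid₂, finite₂, proper₂⟩ hP₂ 0 1
      (fun i => va (t i)) (fun i => vb (σ (t i))) ?_ ?_ ?_ (by decide)
      (hva.comp ht) (hvb.comp (hσ.comp ht)) ?_ ?_ ?_ (fun i => P (t i)) (fun i => hPi (t i))
      (fun i => (hPr (t i)).trans (harc _ (cca (t i)))) (fun i => Q (σ (t i)))
      (fun i => (hQr (σ (t i))).trans (harc _ (ccb (σ (t i)))))
    · intro i; generalize t i = j; revert j; decide +kernel
    · intro i; generalize t i = j; revert j; decide +kernel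
    · intro i; generalize t i = j; revert j; decide +kernel
    · intro i; generalize t i = j; revert j; decide +kernel
    · intro i; generalize t i = j; revert j; decide +kernel
    · intro i i'; generalize t i = j; generalize t i' = j'; revert j j'; decide +kernel
  have r1 : S (ex (Q 0)) (ex (Q 1)) (ex (Q 3)) = S (ex (Q 1)) (ex (Q 2)) (ex (Q 3)) := by
    have h1 := o1 ![0, 1, 3] (by decide)
    have h2 := o2 ![0, 1, 3] (by decide)
    have h3 := neg_injective (h1.symm.trans h2)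
    exact h3
  have r2 : S (ex (Q 1)) (ex (Q 2)) (ex (Q 3)) = S (ex (Q 2)) (ex (Q 0)) (ex (Q 3)) := by
    have h1 := o1 ![1, 2, 3] (by decide)
    have h2 := o2 ![1, 2, 3] (by decide)
    have h3 := neg_injective (h1.symm.trans h2)
    exact h3
  have r3 : S (ex (Q 0)) (ex (Q 2)) (ex (Q 3)) = - S (ex (Q 2)) (ex (Q 0)) (ex (Q 3)) := by
    rw [← S_rot, S_swap]
  have r4 := S_cocycle (ex (Q 0)) (ex (Q 1)) (ex (Q 2)) (ex (Q 3))
  have cor : ∀ i j, i ≠ j → Cor (ex (Q i)) (ex (Q j)) := by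
    intro i j hij s t hst
    have hi : ex (Q i) s ∈ D₁.arc s(1, vb i) := by rw [← hQr]; exact ex_mem _ _
    have hj : ex (Q i) s ∈ D₁.arc s(1, vb j) := by rw [hst, ← hQr]; exact ex_mem _ _
    have hne : ∀ i : Fin 4, (1 : Fin 10) ≠ vb i := by decide +kernel
    obtain ⟨w, h1, h2, h3⟩ := D₁.meet hP₁ (ccb i).1 (ccb j).1 (by
      intro h
      rw [Sym2.eq_iff] at h
      rcases h with ⟨-, h⟩ | ⟨h, -⟩
      · exact hij (hvb h)
      · exact hne j h) hi hj
    rw [Sym2.mem_iff] at h1 h2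
    have hw : w = 1 := by
      rcases h1 with h1 | h1
      · exact h1
      · rcases h2 with h2 | h2
        · exact h2
        · exact absurd (hvb (h1.symm.trans h2)) hij
    subst hw
    exact ⟨ex_source (hQi i) (fun h => hne i (D₁.pt_inj h)) h3,
      ex_source (hQi j) (fun h => hne j (D₁.pt_inj h)) (by rw [← hst]; exact h3)⟩
  have cf : ∀ i, Continuous (ex (Q i)) := fun i => Path.continuous_extend _
  have f0 : ∀ i, ex (Q i) 0 = D₁.pt 1 := fun i => Path.extend_zero _
  obtain ⟨κ, hκ, hκ2⟩ := triple (cf 0) (cf 1) (cf 2) ((f0 0).trans (f0 1).symm)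
    ((f0 0).trans (f0 2).symm) (cor 0 1 (by decide)) (cor 1 2 (by decide)) (cor 2 0 (by decide))
  obtain ⟨x, -, hx2⟩ := triple (cf 0) (cf 1) (cf 3) ((f0 0).trans (f0 1).symm)
    ((f0 0).trans (f0 3).symm) (cor 0 1 (by decide)) (cor 1 3 (by decide)) (cor 3 0 (by decide))
  have hexp := S_exp (cf 0) (cf 1) (cf 3) ((f0 0).trans (f0 1).symm)
    ((f0 0).trans (f0 3).symm) (cor 0 1 (by decide)) (cor 1 3 (by decide)) (cor 3 0 (by decide))
  change S (ex (Q 0)) (ex (Q 1)) (ex (Q 2)) = _ at hκ2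
  change S (ex (Q 0)) (ex (Q 1)) (ex (Q 3)) = _ at hx2
  rw [hx2] at hexp
  have hx := pi_le hexp
  have hk : (κ : ℂ) * I = ((3 * x : ℝ) : ℂ) * I := by
    push_cast
    linear_combination -hκ2 + r4 - r3 + 3 * hx2 - 2 * r1 - r2
  have hk' : κ = 3 * x := by
    have := congrArg Complex.im hk
    simpa using this
  rw [hk', abs_mul] at hκ
  have : |(3 : ℝ)| = 3 := abs_of_pos (by norm_num)
  rw [this] at hκ
  linarith

end Pool.Agent.TH510.Sefe
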