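import Pool.Agent.TH510.Sefe.Defs
import Pool.Agent.H858R3.Cross

/-!
# The orientation of three arcs at the two ends of a theta graph
-/

set_option autoImplicit false

namespace Pool.Agent.TH510.Sefe

open Set Complex Pool.Agent.H858R3.Lift Pool.Agent.H858R3.Cross

variable {V : Type} {G : SimpleGraph V}

theorem Drawing.meet (D : Drawing G) (hP : D.Planar) {e f : Sym2 V} (he : e ∈ G.edgeSet)
    (hf : f ∈ G.edgeSet) (hef : e ≠ f) {z : ℂ} (h1 : z ∈ D.arc e) (h2 : z ∈ D.arc f) :
    ∃ w : V, w ∈ e ∧ w ∈ f ∧ z = D.pt w := by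
  have h := hP e he f hf hef
  have hz : z ∈ Set.range D.pt := by
    by_contra hcon
    have : z ∈ D.crossings e f := ⟨⟨h1, h2⟩, hcon⟩
    rw [h] at this
    exact this
  obtain ⟨w, rfl⟩ := hz
  exact ⟨w, D.avoid e he w h1, D.avoid f hf w h2, rfl⟩

/-- extended path -/
noncomputable abbrev ex {x y : ℂ} (γ : Path x y) : ℝ → ℂ := γ.extend

theorem ex_mem {x y : ℂ} (γ : Path x y) (t : ℝ) : ex γ t ∈ Set.range γ := by
  rw [← γ.extend_range]; exact ⟨t, rfl⟩

theorem ex_source {x y : ℂ} {γ : Path x y} (hγ : Function.Injective γ) (hxy : x ≠ y) {t : ℝ}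
    (h : ex γ t = x) : t ≤ 0 := by
  by_contra hcon
  push Not at hcon
  rcases le_or_gt t 1 with h1 | h1
  · have e1 : γ.extend t = γ ⟨t, hcon.le, h1⟩ := γ.extend_apply ⟨hcon.le, h1⟩
    have e2 : γ ⟨t, hcon.le, h1⟩ = γ 0 := by rw [← e1, γ.source]; exact h
    have := congrArg Subtype.val (hγ e2)
    simp at this
    linarith
  · have : γ.extend t = y := γ.extend_of_one_le h1.le
    exact hxy (h.symm.trans this)

theorem tr_trans {x y z : ℂ} (γ : Path x y) (δ : Path y z) :
    tr (ex (γ.trans δ)) (1 / 2) = ex γ := by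
  funext t
  unfold tr ex
  set u : ℝ := max 0 (min t 1) with hu
  have hu0 : 0 ≤ u := le_max_left _ _
  have hu1 : u ≤ 1 := max_le zero_le_one (min_le_right _ _)
  have e1 : (γ.trans δ).extend (1 / 2 * u) = γ.extend u := by
    rw [(γ.trans δ).extend_apply ⟨by positivity, by linarith⟩, Path.trans_apply]
    rw [dif_pos (by simp only; linarith), γ.extend_apply ⟨hu0, hu1⟩]
    congr 1
    apply Subtype.ext
    simp only
    ring
  rw [e1]
  rcases le_or_gt t 0 with h | h
  · have : u = 0 := by rw [hu, max_eq_left]; exact (min_le_left _ _).trans h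
    rw [this, γ.extend_zero, γ.extend_of_le_zero h]
  · rcases le_or_gt t 1 with h1 | h1
    · have : u = t := by rw [hu, min_eq_left h1, max_eq_right h.le]
      rw [this]
    · have : u = 1 := by rw [hu, min_eq_right h1.le, max_eq_right zero_le_one]
      rw [this, γ.extend_one, γ.extend_of_one_le h1.le]

/-- In a planar drawing of a subdivided theta graph, the orientations of the three arcs at the two
ends are opposite. -/
theorem orient (D : Drawing G) (hP : D.Planar) (c d : V) (a b : Fin 3 → V)
    (hca : ∀ i, G.Adj c (a i)) (hab : ∀ i, G.Adj (a i) (b i)) (hdb : ∀ i, G.Adj d (b i))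
    (hcd : c ≠ d) (ha : Function.Injective a) (hb : Function.Injective b)
    (hcb : ∀ i, c ≠ b i) (hda : ∀ i, d ≠ a i) (habn : ∀ i j, a i ≠ b j)
    (P : ∀ i, Path (D.pt c) (D.pt (a i))) (hPi : ∀ i, Function.Injective (P i))
    (hPr : ∀ i, Set.range (P i) = D.arc s(c, a i))
    (Q : ∀ i, Path (D.pt d) (D.pt (b i)))
    (hQr : ∀ i, Set.range (Q i) = D.arc s(d, b i)) :
    S (ex (P 0)) (ex (P 1)) (ex (P 2)) = - S (ex (Q 0)) (ex (Q 1)) (ex (Q 2)) := by
  have hR : ∀ i, ∃ γ : Path (D.pt (a i)) (D.pt (b i)), Function.Injective γ ∧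
      Set.range γ = D.arc s(a i, b i) := fun i => D.isArc _ _ (hab i)
  choose R hRi hRr using hR
  have mca : ∀ i, (s(c, a i) : Sym2 V) ∈ G.edgeSet := hca
  have mab : ∀ i, (s(a i, b i) : Sym2 V) ∈ G.edgeSet := hab
  have mdb : ∀ i, (s(d, b i) : Sym2 V) ∈ G.edgeSet := hdb
  have key : ∀ i t, ex ((P i).trans (R i)) t ∈ D.arc s(c, a i) ∨
      ex ((P i).trans (R i)) t ∈ D.arc s(a i, b i) := by
    intro i t
    have := ex_mem ((P i).trans (R i)) t
    rw [Path.trans_range, hPr, hRr] at this
    exact this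
  have aca : ∀ i, c ≠ a i := fun i h => (hca i).ne h
  have adb : ∀ i, d ≠ b i := fun i h => (hdb i).ne h
  -- meets at c only
  have cor : ∀ i j, i ≠ j → ∀ z, (z ∈ D.arc s(c, a i) ∨ z ∈ D.arc s(a i, b i)) →
      (z ∈ D.arc s(c, a j) ∨ z ∈ D.arc s(a j, b j)) → z = D.pt c := by
    intro i j hij z hi hj
    have haij : a i ≠ a j := fun h => hij (ha h)
    have hbij : b i ≠ b j := fun h => hij (hb h)
    rcases hi with hi | hi <;> rcases hj with hj | hj
    · obtain ⟨w, h1, h2, h3⟩ := D.meet hP (mca i) (mca j) (by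
        intro h
        rw [Sym2.eq_iff] at h
        rcases h with ⟨-, h⟩ | ⟨h, -⟩
        · exact haij h
        · exact aca j h) hi hj
      rw [Sym2.mem_iff] at h1 h2
      rcases h1 with rfl | rfl
      · exact h3
      · rcases h2 with h2 | h2
        · exact absurd h2.symm (aca i)
        · exact absurd h2 haij
    · obtain ⟨w, h1, h2, h3⟩ := D.meet hP (mca i) (mab j) (by
        intro h
        rw [Sym2.eq_iff] at h
        rcases h with ⟨h, -⟩ | ⟨h, -⟩
        · exact aca j h
        · exact hcb j h) hi hj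
      rw [Sym2.mem_iff] at h1 h2
      rcases h1 with rfl | rfl <;> rcases h2 with h2 | h2
      · exact absurd h2 (aca j)
      · exact absurd h2 (hcb j)
      · exact absurd h2 haij
      · exact absurd h2 (habn i j)
    · obtain ⟨w, h1, h2, h3⟩ := D.meet hP (mab i) (mca j) (by
        intro h
        rw [Sym2.eq_iff] at h
        rcases h with ⟨h, -⟩ | ⟨-, h⟩
        · exact aca i h.symm
        · exact hcb i h.symm) hi hj
      rw [Sym2.mem_iff] at h1 h2
      rcases h1 with rfl | rfl <;> rcases h2 with h2 | h2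
      · exact absurd h2.symm (aca i)
      · exact absurd h2 haij
      · exact absurd h2.symm (hcb i)
      · exact absurd h2.symm (habn j i)
    · obtain ⟨w, h1, h2, h3⟩ := D.meet hP (mab i) (mab j) (by
        intro h
        rw [Sym2.eq_iff] at h
        rcases h with ⟨h, -⟩ | ⟨h, -⟩
        · exact haij h
        · exact habn i j h) hi hj
      rw [Sym2.mem_iff] at h1 h2
      rcases h1 with rfl | rfl <;> rcases h2 with h2 | h2
      · exact absurd h2 haij
      · exact absurd h2 (habn i j)
      · exact absurd h2.symm (habn j i)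
      · exact absurd h2 hbij
  have hnc : ∀ i, D.pt c ∉ D.arc s(a i, b i) := by
    intro i h
    have := D.avoid _ (mab i) c h
    rw [Sym2.mem_iff] at this
    rcases this with h | h
    · exact aca i h
    · exact hcb i h
  -- the value `pt c` is taken for t ≤ 0 only
  have src : ∀ i t, ex ((P i).trans (R i)) t = D.pt c → t ≤ 0 := by
    intro i t h
    by_contra hcon
    push Not at hcon
    by_cases h1 : t ≤ 1 / 2
    · have e1 : (((P i).trans (R i)).extend t) = (P i).extend (2 * t) := by
        rw [((P i).trans (R i)).extend_apply ⟨hcon.le, by linarith⟩, Path.trans_apply,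
          dif_pos h1, (P i).extend_apply ⟨by linarith, by linarith⟩]
      have e2 : ex (P i) (2 * t) = D.pt c := e1.symm.trans h
      have := ex_source (hPi i) (fun h => aca i (D.pt_inj h)) e2
      linarith
    · push Not at h1
      have h2 : ex ((P i).trans (R i)) t ∈ Set.range (R i) := by
        rcases le_or_gt t 1 with h3 | h3
        · have e1 : ((P i).trans (R i)).extend t = (R i).extend (2 * t - 1) := by
            rw [((P i).trans (R i)).extend_apply ⟨hcon.le, h3⟩, Path.trans_apply,
              dif_neg (not_le.2 h1), (R i).extend_apply ⟨by linarith, by linarith⟩]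
          show ((P i).trans (R i)).extend t ∈ _
          rw [e1]; exact ex_mem (R i) _
        · show ((P i).trans (R i)).extend t ∈ _
          rw [Path.extend_of_one_le _ h3.le]
          exact ⟨1, (R i).target⟩
      rw [h, hRr] at h2
      exact hnc i h2
  have corE : ∀ i j, i ≠ j → Cor (ex ((P i).trans (R i))) (ex ((P j).trans (R j))) := by
    intro i j hij s t hst
    have h1 := cor i j hij _ (key i s) (by rw [hst]; exact key j t)
    exact ⟨src i s h1, src j t (by rw [← hst]; exact h1)⟩
  have dis : ∀ i j, i ≠ j → ∀ s t, ex ((P i).trans (R i)) s ≠ ex (Q j) t := by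
    intro i j hij s t hst
    have haij : a i ≠ a j := fun h => hij (ha h)
    have hbij : b i ≠ b j := fun h => hij (hb h)
    have h2 : ex ((P i).trans (R i)) s ∈ D.arc s(d, b j) := by
      rw [hst, ← hQr]; exact ex_mem _ _
    rcases key i s with h1 | h1
    · obtain ⟨w, h3, h4, -⟩ := D.meet hP (mca i) (mdb j) (by
        intro h
        rw [Sym2.eq_iff] at h
        rcases h with ⟨h, -⟩ | ⟨h, -⟩
        · exact hcd h
        · exact hcb j h) h1 h2
      rw [Sym2.mem_iff] at h3 h4
      rcases h3 with rfl | rfl <;> rcases h4 with h4 | h4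
      · exact hcd h4
      · exact hcb j h4
      · exact hda i h4.symm
      · exact habn i j h4
    · obtain ⟨w, h3, h4, -⟩ := D.meet hP (mab i) (mdb j) (by
        intro h
        rw [Sym2.eq_iff] at h
        rcases h with ⟨h, -⟩ | ⟨h, -⟩
        · exact hda i h.symm
        · exact habn i j h) h1 h2
      rw [Sym2.mem_iff] at h3 h4
      rcases h3 with rfl | rfl <;> rcases h4 with h4 | h4
      · exact hda i h4.symm
      · exact habn i j h4
      · exact adb i h4.symm
      · exact hbij h4
  have ce : ∀ i, Continuous (ex ((P i).trans (R i))) := fun i => Path.continuous_extend _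
  have cf : ∀ i, Continuous (ex (Q i)) := fun i => Path.continuous_extend _
  have e0 : ∀ i, ex ((P i).trans (R i)) 0 = D.pt c := fun i => Path.extend_zero _
  have f0 : ∀ i, ex (Q i) 0 = D.pt d := fun i => Path.extend_zero _
  have e1 : ∀ i, ex ((P i).trans (R i)) 1 = D.pt (b i) := fun i => Path.extend_one _
  have f1 : ∀ i, ex (Q i) 1 = D.pt (b i) := fun i => Path.extend_one _
  have h01 : (0 : Fin 3) ≠ 1 := by decide
  have h02 : (0 : Fin 3) ≠ 2 := by decide
  have h12 : (1 : Fin 3) ≠ 2 := by decide
  have k1 := theta (ce 0) (ce 1) (ce 2) (cf 0) (cf 1) (cf 2) ((e0 0).trans (e0 1).symm)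
    ((e0 0).trans (e0 2).symm) ((f0 0).trans (f0 1).symm) ((f0 0).trans (f0 2).symm)
    ((e1 0).trans (f1 0).symm) ((e1 1).trans (f1 1).symm) ((e1 2).trans (f1 2).symm)
    (dis 0 1 h01) (dis 0 2 h02) (dis 1 0 h01.symm) (dis 1 2 h12) (dis 2 0 h02.symm)
    (dis 2 1 h12.symm)
  rw [← k1, ← S_tr (ce 0) (ce 1) (ce 2) ((e0 0).trans (e0 1).symm) ((e0 0).trans (e0 2).symm)
    (corE 0 1 h01) (corE 1 2 h12) (corE 2 0 h02.symm) (a := 1 / 2) (b := 1 / 2) (c := 1 / 2)
    (by norm_num) (by norm_num) (by norm_num) (by norm_num) (by norm_num) (by norm_num),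
    tr_trans, tr_trans, tr_trans]

end Pool.Agent.TH510.Sefe
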